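import Mathlib

namespace Pool.Agent.H.MP_4a5b11_an
open Set

noncomputable def phi (x : ℝ) : ℝ := Metric.infDist x (Set.range ((↑) : ℤ → ℝ))
noncomputable def T (x : ℝ) : ℝ := ∑' n : ℕ, phi (2 ^ n * x) / 2 ^ n

theorem phi_le (x : ℝ) (z : ℤ) : phi x ≤ |x - z| := by
  have := Metric.infDist_le_dist_of_mem (x := x) (s := Set.range ((↑) : ℤ → ℝ)) (y := z) ⟨z, rfl⟩
  rwa [Real.dist_eq] at this

theorem phi_eq (x : ℝ) : phi x = |x - round x| := by
  refine le_antisymm (phi_le x _) ?_
  refine (Metric.le_infDist (Set.range_nonempty _)).2 ?_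
  rintro _ ⟨z, rfl⟩
  rw [Real.dist_eq]
  exact round_le x z

theorem phi_nonneg (x : ℝ) : 0 ≤ phi x := Metric.infDist_nonneg

theorem phi_le_half (x : ℝ) : phi x ≤ 1 / 2 := by
  rw [phi_eq]; exact abs_sub_round x

theorem phi_add_int (x : ℝ) (z : ℤ) : phi (x + z) = phi x := by
  rw [phi_eq, phi_eq, round_add_intCast]; push_cast; ring_nf

theorem phi_neg (x : ℝ) : phi (-x) = phi x := by
  have h : ∀ y : ℝ, phi (-y) ≤ phi y := fun y => by
    have := phi_le (-y) (-round y)
    rw [phi_eq y]
    refine this.trans (le_of_eq ?_)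
    push_cast
    rw [← abs_neg]; ring_nf
  refine le_antisymm (h x) ?_
  have := h (-x)
  rwa [neg_neg] at this

theorem phi_small {x : ℝ} (h0 : 0 ≤ x) (h1 : x ≤ 1 / 2) : phi x = x := by
  refine le_antisymm ?_ ?_
  · have := phi_le x 0
    simpa [abs_of_nonneg h0] using this
  · rw [phi_eq]
    rcases le_or_gt (round x) 0 with h | h
    · have : ((round x : ℤ) : ℝ) ≤ 0 := by exact_mod_cast h
      exact le_trans (by linarith) (le_abs_self _)
    · have : (1 : ℝ) ≤ ((round x : ℤ) : ℝ) := by exact_mod_cast h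
      exact le_trans (by linarith) (neg_le_abs _)

theorem phi_cont : Continuous phi := Metric.continuous_infDist_pt _

theorem term_le (x : ℝ) (n : ℕ) : ‖phi (2 ^ n * x) / 2 ^ n‖ ≤ (1 / 2 : ℝ) ^ n := by
  have h1 := phi_nonneg (2 ^ n * x)
  have h2 := phi_le_half (2 ^ n * x)
  rw [Real.norm_of_nonneg (by positivity), one_div_pow]
  gcongr
  linarith

theorem summ (x : ℝ) : Summable fun n : ℕ => phi (2 ^ n * x) / 2 ^ n :=
  Summable.of_norm_bounded summable_geometric_two (term_le x)

theorem T_cont : Continuous T :=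
  continuous_tsum (fun n => by have := phi_cont; fun_prop) summable_geometric_two
    (fun n x => term_le x n)

theorem T_eq (x : ℝ) : T x = phi x + T (2 * x) / 2 := by
  unfold T
  rw [(summ x).tsum_eq_zero_add, ← tsum_div_const]
  congr 1
  · simp
  · refine tsum_congr fun n => ?_
    rw [pow_succ, mul_assoc]; field_simp

theorem T_add_int (x : ℝ) (z : ℤ) : T (x + z) = T x := by
  unfold T
  refine tsum_congr fun n => ?_
  have : (2 : ℝ) ^ n * (x + z) = 2 ^ n * x + ((2 ^ n * z : ℤ) : ℝ) := by push_cast; ring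
  rw [this, phi_add_int]

theorem T_neg (x : ℝ) : T (-x) = T x := by
  unfold T
  refine tsum_congr fun n => ?_
  rw [mul_neg, phi_neg]

theorem T_nonneg (x : ℝ) : 0 ≤ T x :=
  tsum_nonneg fun n => by have := phi_nonneg (2 ^ n * x); positivity

theorem T_zero : T 0 = 0 := by
  have := T_eq 0
  rw [phi_small le_rfl (by norm_num), mul_zero] at this
  linarith

theorem T_int (z : ℤ) : T z = 0 := by
  have := T_add_int 0 z
  rwa [zero_add, T_zero] at this

theorem T_one : T 1 = 0 := by simpa using T_int 1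

theorem T_sym (x : ℝ) : T (1 - x) = T x := by
  have := T_add_int (-x) 1
  rw [T_neg] at this
  rw [← this]; congr 1; push_cast; ring

theorem T_le_two (x : ℝ) : T x ≤ 2 := by
  have := (summ x).tsum_le_tsum (fun n => (le_abs_self _).trans (term_le x n))
    summable_geometric_two
  rwa [tsum_geometric_two] at this

theorem T_half0 {s : ℝ} (h0 : 0 ≤ s) (h1 : s ≤ 1) : T (s / 2) = s / 2 + T s / 2 := by
  rw [T_eq, phi_small (by linarith) (by linarith)]
  congr 3; ring

theorem T_half1 {s : ℝ} (h0 : 0 ≤ s) (h1 : s ≤ 1) :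
    T ((1 + s) / 2) = (1 - s) / 2 + T s / 2 := by
  have := T_half0 (s := 1 - s) (by linarith) (by linarith)
  rw [T_sym] at this
  rw [← this, ← T_sym]; congr 1; ring

theorem phi_two (x : ℝ) : phi x + phi (2 * x) / 2 ≤ 1 / 2 := by
  have h := phi_le_half x
  rw [phi_eq] at h ⊢
  rcases le_total 0 (x - round x) with h0 | h0
  · have := phi_le (2 * x) (2 * round x + 1)
    rw [abs_of_nonneg h0] at h ⊢
    rw [abs_of_nonpos (by push_cast; linarith)] at this
    push_cast at this; linarith
  · have := phi_le (2 * x) (2 * round x - 1)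
    rw [abs_of_nonpos h0] at h ⊢
    rw [abs_of_nonneg (by push_cast; linarith)] at this
    push_cast at this; linarith

theorem T_le (x : ℝ) : T x ≤ 2 / 3 := by
  have h : ∀ k : ℕ, ∀ x : ℝ, T x ≤ 2 / 3 + 2 * (1 / 4 : ℝ) ^ k := by
    intro k
    induction k with
    | zero => intro x; have := T_le_two x; norm_num; linarith
    | succ k ih =>
      intro x
      have h1 := T_eq x
      have h2 := T_eq (2 * x)
      have h3 := ih (2 * (2 * x))
      have h4 := phi_two x
      rw [pow_succ]; linarith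
  have ht : Filter.Tendsto (fun k : ℕ => 2 / 3 + 2 * (1 / 4 : ℝ) ^ k) Filter.atTop
      (nhds (2 / 3 + 2 * 0)) :=
    ((tendsto_pow_atTop_nhds_zero_of_lt_one (by norm_num) (by norm_num)).const_mul 2).const_add _
  have := ge_of_tendsto' ht fun k => h k x
  linarith

theorem T_lin (e : ℕ) : ∀ u : ℝ, 0 ≤ u → u ≤ 1 → T u ≤ e * u + 2 / 3 / 2 ^ e := by
  induction e with
  | zero => intro u _ _; have := T_le u; norm_num; linarith
  | succ e ih =>
    intro u h0 h1
    rcases le_total u (1 / 2) with h | h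
    · have h2 := T_half0 (s := 2 * u) (by linarith) (by linarith)
      have h3 := ih (2 * u) (by linarith) (by linarith)
      have h4 : 2 * u / 2 = u := by ring
      rw [h4] at h2
      have h5 : (2 / 3 / 2 ^ (e + 1) : ℝ) = (2 / 3 / 2 ^ e) / 2 := by rw [pow_succ]; field_simp
      rw [h5]; push_cast; linarith
    · have h2 := T_le u
      rcases Nat.eq_zero_or_pos e with rfl | he
      · norm_num; linarith
      · have : (1 : ℝ) ≤ e := by exact_mod_cast he
        have h5 : (0 : ℝ) ≤ 2 / 3 / 2 ^ (e + 1) := by positivity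
        push_cast; nlinarith

theorem T_dyadic (m : ℕ) : ∀ k : ℤ, ∃ z : ℤ, T (k / 2 ^ m) * 2 ^ m = z := by
  induction m with
  | zero => intro k; exact ⟨0, by simp [T_int]⟩
  | succ m ih =>
    intro k
    obtain ⟨z, hz⟩ := ih k
    have h1 := T_eq (k / 2 ^ (m + 1))
    have h2 : (2 : ℝ) * (k / 2 ^ (m + 1)) = k / 2 ^ m := by rw [pow_succ]; field_simp
    rw [h2, phi_eq] at h1
    refine ⟨|k - 2 ^ (m + 1) * round ((k : ℝ) / 2 ^ (m + 1))| + z, ?_⟩
    rw [h1, add_mul]
    push_cast
    congr 1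
    · have : (0 : ℝ) < 2 ^ (m + 1) := by positivity
      rw [← abs_of_pos this, ← abs_mul, abs_of_pos this]
      congr 1; field_simp
    · rw [← hz, pow_succ]; ring

end Pool.Agent.H.MP_4a5b11_an
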