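import Pool.Agent.H.MP_4a5b11_an.A

namespace Pool.Agent.H.MP_4a5b11_an
open Set

def S (s : ℤ × ℤ) : Set ℝ := {t | 0 ≤ t ∧ t ≤ 1 ∧ T t + s.1 * t = s.2 / 1025}

def c0 (s : ℤ × ℤ) : ℤ × ℤ := (s.1 + 1, 2 * s.2)
def c1 (s : ℤ × ℤ) : ℤ × ℤ := (s.1 - 1, 2 * s.2 - (s.1 + 1) * 1025)

def feas (s : ℤ × ℤ) : Bool :=
  decide (min s.1 0 * 1025 ≤ s.2) && decide (3 * (s.2 - max s.1 0 * 1025) * 2 ^ s.1.natAbs ≤ 2050)

theorem mem0 {s : ℤ × ℤ} {t : ℝ} (h0 : 0 ≤ t) (h1 : t ≤ 1) : t / 2 ∈ S s ↔ t ∈ S (c0 s) := by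
  have := T_half0 h0 h1
  simp only [S, c0, mem_ofPred_eq, this]
  push_cast
  constructor
  · rintro ⟨-, -, h⟩; exact ⟨h0, h1, by linarith⟩
  · rintro ⟨-, -, h⟩; exact ⟨by linarith, by linarith, by linarith⟩

theorem mem1 {s : ℤ × ℤ} {t : ℝ} (h0 : 0 ≤ t) (h1 : t ≤ 1) :
    (1 + t) / 2 ∈ S s ↔ t ∈ S (c1 s) := by
  have := T_half1 h0 h1
  simp only [S, c1, mem_ofPred_eq, this]
  push_cast
  constructor
  · rintro ⟨-, -, h⟩; exact ⟨h0, h1, by linarith⟩
  · rintro ⟨-, -, h⟩; exact ⟨by linarith, by linarith, by linarith⟩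

theorem split (s : ℤ × ℤ) :
    S s ⊆ (fun t => t / 2) '' S (c0 s) ∪ (fun t => (1 + t) / 2) '' S (c1 s) := by
  intro t ht
  have h0 := ht.1
  have h1 := ht.2.1
  rcases le_total t (1 / 2) with h | h
  · left
    have e : 2 * t / 2 = t := by ring
    exact ⟨2 * t, (mem0 (by linarith) (by linarith)).1 (by rwa [e]), e⟩
  · right
    have e : (1 + (2 * t - 1)) / 2 = t := by ring
    exact ⟨2 * t - 1, (mem1 (by linarith) (by linarith)).1 (by rwa [e]), e⟩

theorem feas_of_mem {s : ℤ × ℤ} {t : ℝ} (ht : t ∈ S s) : feas s = true := by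
  obtain ⟨d, n⟩ := s
  obtain ⟨h0, h1, h⟩ := ht
  simp only at h
  have hT := T_nonneg t
  simp only [feas, Bool.and_eq_true, decide_eq_true_eq]
  obtain ⟨e, rfl | rfl⟩ := Int.eq_nat_or_neg d
  · have he : (0 : ℤ) ≤ e := Int.natCast_nonneg e
    have he' : (0 : ℝ) ≤ e := Nat.cast_nonneg e
    rw [min_eq_right he, max_eq_left he, Int.natAbs_natCast]
    have h2 := T_lin e (1 - t) (by linarith) (by linarith)
    rw [T_sym] at h2
    push_cast at h
    constructor
    · have : (0 : ℝ) ≤ n := by have := mul_nonneg he' h0; linarith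
      have : (0 : ℤ) ≤ n := by exact_mod_cast this
      linarith
    · have h3 : (n : ℝ) / 1025 - e ≤ 2 / 3 / 2 ^ e := by linarith
      rw [le_div_iff₀ (by positivity)] at h3
      have : (3 : ℝ) * (n - e * 1025) * 2 ^ e ≤ 2050 := by linarith
      exact_mod_cast this
  · have he : -(e : ℤ) ≤ 0 := by omega
    have he' : (0 : ℝ) ≤ e := Nat.cast_nonneg e
    rw [min_eq_left he, max_eq_right he, Int.natAbs_neg, Int.natAbs_natCast]
    have h2 := T_lin e t h0 h1
    push_cast at h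
    constructor
    · have h4 : (e : ℝ) * t ≤ e := by nlinarith
      have : -(e : ℝ) * 1025 ≤ n := by linarith
      exact_mod_cast this
    · have h3 : (n : ℝ) / 1025 ≤ 2 / 3 / 2 ^ e := by linarith
      rw [le_div_iff₀ (by positivity)] at h3
      have : (3 : ℝ) * (n - 0 * 1025) * 2 ^ e ≤ 2050 := by linarith
      exact_mod_cast this

def L : List (ℤ × ℤ × ℕ) := [(0,482,100), (-1,-61,99), (-2,-122,98), (-1,-244,97), (-2,-488,96), (-3,49,95), (-2,98,94), (-1,196,93), (0,392,85), (-1,-241,84), (-2,-482,83), (-3,61,82), (-2,122,81), (-1,244,80), (0,488,64), (-1,-49,63), (-2,-98,62), (-1,-196,61), (-2,-392,60), (-1,-784,59), (-2,-1568,58), (-3,-2111,57), (-4,-2172,56), (-5,-1269,55), (-4,-2538,54), (-5,-2001,53), (-4,-4002,52), (-5,-4929,51), (-6,-5758,50), (-7,-6391,49), (-8,-6632,48), (-9,-6089,47), (-10,-3978,46), (-9,-7956,45), (-10,-7712,44), (-11,-6199,43), (-12,-2148,42), (-11,-4296,41), (-10,-8592,40), (-11,-7959,39), (-12,-5668,38), (-13,-61,37), (-12,-122,36),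 (-11,-244,35), (-10,-488,34), (-9,-976,33), (-8,-1952,32), (-7,-3904,32), (-8,-1658,32), (-7,-3316,32), (-8,-482,32), (-7,-964,32), (-6,-1928,32), (-5,-3856,32), (-6,-3612,32), (-7,-2099,32), (-6,-4198,32), (-7,-3271,32), (-8,-392,32), (-7,-784,32), (-6,-1568,32), (-5,-3136,32), (-6,-2172,32), (-5,-4344,32), (-6,-4588,32), (-7,-4051,32), (1,976,31), (2,1952,30), (1,829,29), (2,1658,28), (1,241,27), (2,482,26), (3,964,25), (4,1928,24), (5,3856,23), (4,1562,22), (5,3124,21), (4,98,20), (5,196,19), (6,392,18), (7,784,17), (8,1568,16), (9,3136,15), (10,6272,14), (9,1269,13), (10,2538,12), (11,5076,11), (12,10152,10), (11,6979,9), (10,1658,8), (11,3316,7), (12,6632,6), (13,13264,5), (12,12178,4), (11,11031,3), (10,9762,2), (9,8249,1), (8,6248,0), (7,3271,0), (8,6542,0), (7,3859,0), (8,7718,0), (7,6211,0), (6,4222,0), (5,1269,0), (6,2538,0), (7,5076,0), (6,1952,0), (7,3904,0), (8,7808,0), (7,6391,0), (6,4582,0), (5,1989,0), (6,3978,0), (5,781,0), (6,1562,0), (7,3124,0),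 (-1,-964,79), (-2,-1928,78), (-3,-2831,77), (-4,-3612,76), (-5,-4149,75), (1,784,74), (2,1568,73), (1,61,72), (2,122,71), (3,244,70), (4,488,69), (5,976,68), (3,3136,67), (2,2172,66), (1,1269,65), (-1,-976,96), (-2,-1952,96), (-3,-2879,96), (-4,-3708,96), (-5,-4341,96), (-6,-4582,96), (-7,-4039,96), (-8,-1928,96), (-7,-3856,96), (-8,-1562,96), (-7,-3124,96), (-8,-98,96), (-7,-196,96), (-6,-392,96), (-5,-784,96), (-4,-1568,96), (-5,-61,96), (-4,-122,96), (-3,-244,96), (1,964,92), (2,1928,91), (1,781,90), (2,1562,89), (1,49,89), (2,98,89), (3,196,89), (4,392,89), (5,784,89), (6,1568,89), (7,3136,89), (8,6272,89), (7,3319,89), (8,6638,89), (7,4051,89), (8,8102,89), (7,6979,89), (6,5758,89), (5,4341,89), (4,2532,89), (5,5064,89), (4,3978,89), (3,2831,89), (3,3124,88), (2,2148,87), (1,1221,86)]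

def lower (r : ℕ) (s : ℤ × ℤ) : Bool :=
  !feas s || L.any fun x => decide (x.1 = s.1) && decide (x.2.1 = s.2) && decide (x.2.2 < r)

def same (r : ℕ) (s : ℤ × ℤ) : Bool :=
  L.any fun x => decide (x.1 = s.1) && decide (x.2.1 = s.2) && decide (x.2.2 = r)

def good (x : ℤ × ℤ × ℕ) : Bool :=
  (lower x.2.2 (c0 (x.1, x.2.1)) && (lower x.2.2 (c1 (x.1, x.2.1)) || same x.2.2 (c1 (x.1, x.2.1))))
  || (same x.2.2 (c0 (x.1, x.2.1)) && lower x.2.2 (c1 (x.1, x.2.1)))

theorem all_good : L.all good = true := by decide +kernel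

theorem same_mem {r : ℕ} {s : ℤ × ℤ} (h : same r s = true) : (s.1, s.2, r) ∈ L := by
  simp only [same, List.any_eq_true, Bool.and_eq_true, decide_eq_true_eq] at h
  obtain ⟨⟨a, b, c⟩, hx, ⟨h1, h2⟩, h3⟩ := h
  simp only at h1 h2 h3
  rw [← h1, ← h2, ← h3]; exact hx

theorem countable_S (r : ℕ) : ∀ d n : ℤ, (d, n, r) ∈ L → (S (d, n)).Countable := by
  induction r using Nat.strong_induction_on with
  | _ r ih =>
  have hlow : ∀ s, lower r s = true → (S s).Countable := by
    intro s h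
    simp only [lower, Bool.or_eq_true, Bool.not_eq_true', List.any_eq_true, Bool.and_eq_true,
      decide_eq_true_eq] at h
    rcases h with h | ⟨⟨a, b, c⟩, hx, ⟨h1, h2⟩, h3⟩
    · have : S s = ∅ := eq_empty_of_forall_notMem fun t ht => by
        rw [feas_of_mem ht] at h; exact absurd h (by decide)
      rw [this]; exact countable_empty
    · simp only at h1 h2 h3
      have := ih c h3 a b hx
      rw [h1, h2] at this; exact this
  have key : ∀ k : ℕ, ∀ d n : ℤ, (d, n, r) ∈ L → ∃ C : Set ℝ, C.Countable ∧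
      ∀ a ∈ S (d, n), a ∉ C → ∀ b ∈ S (d, n), b ∉ C → |a - b| ≤ (1 / 2 : ℝ) ^ k := by
    intro k
    induction k with
    | zero =>
      intro d n _
      refine ⟨∅, countable_empty, fun a ha _ b hb _ => ?_⟩
      rw [pow_zero, abs_le]
      constructor <;> linarith [ha.1, ha.2.1, hb.1, hb.2.1]
    | succ k ihk =>
      intro d n hx
      have hg := List.all_eq_true.1 all_good _ hx
      simp only [good, Bool.or_eq_true, Bool.and_eq_true] at hg
      rcases hg with ⟨g0, g1 | g1⟩ | ⟨g0, g1⟩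
      · refine ⟨S (d, n), ?_, fun a ha ha' => absurd ha ha'⟩
        exact (((hlow _ g0).image _).union ((hlow _ g1).image _)).mono (split _)
      · obtain ⟨C, hC, h⟩ := ihk _ _ (same_mem g1)
        refine ⟨(fun t => t / 2) '' S (c0 (d, n)) ∪ (fun t => (1 + t) / 2) '' C,
          ((hlow _ g0).image _).union (hC.image _), fun a ha ha' b hb hb' => ?_⟩
        obtain ⟨a', h1, rfl⟩ := (split _ ha).resolve_left fun h => ha' (Or.inl h)
        obtain ⟨b', h2, rfl⟩ := (split _ hb).resolve_left fun h => hb' (Or.inl h)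
        have := h a' h1 (fun h => ha' (Or.inr ⟨a', h, rfl⟩)) b' h2
          (fun h => hb' (Or.inr ⟨b', h, rfl⟩))
        rw [abs_le] at this ⊢
        rw [pow_succ]
        constructor <;> simp only <;> linarith [this.1, this.2]
      · obtain ⟨C, hC, h⟩ := ihk _ _ (same_mem g0)
        refine ⟨(fun t => t / 2) '' C ∪ (fun t => (1 + t) / 2) '' S (c1 (d, n)),
          (hC.image _).union ((hlow _ g1).image _), fun a ha ha' b hb hb' => ?_⟩
        obtain ⟨a', h1, rfl⟩ := (split _ ha).resolve_right fun h => ha' (Or.inr h)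
        obtain ⟨b', h2, rfl⟩ := (split _ hb).resolve_right fun h => hb' (Or.inr h)
        have := h a' h1 (fun h => ha' (Or.inl ⟨a', h, rfl⟩)) b' h2
          (fun h => hb' (Or.inl ⟨b', h, rfl⟩))
        rw [abs_le] at this ⊢
        rw [pow_succ]
        constructor <;> simp only <;> linarith [this.1, this.2]
  intro d n hx
  choose C hC h using fun k => key k d n hx
  have hs : (S (d, n) \ ⋃ k, C k).Subsingleton := by
    intro a ha b hb
    have h1 : ∀ k, |a - b| ≤ (1 / 2 : ℝ) ^ k := fun k =>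
      h k a ha.1 (fun h => ha.2 (mem_iUnion.2 ⟨k, h⟩)) b hb.1 (fun h => hb.2 (mem_iUnion.2 ⟨k, h⟩))
    have := ge_of_tendsto' (tendsto_pow_atTop_nhds_zero_of_lt_one (r := (1 / 2 : ℝ))
      (by norm_num) (by norm_num)) h1
    exact sub_eq_zero.1 (abs_nonpos_iff.1 this)
  refine (hs.countable.union (countable_iUnion hC)).mono fun t ht => ?_
  by_cases h : t ∈ ⋃ k, C k
  · exact Or.inr h
  · exact Or.inl ⟨ht, h⟩

def run : List Bool → ℤ × ℤ → ℤ × ℤ
  | [], s => s
  | b :: w, s => run w (if b then c1 s else c0 s)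

noncomputable def pull : List Bool → ℝ → ℝ
  | [], t => t
  | b :: w, t => if b then (1 + pull w t) / 2 else pull w t / 2

theorem pull_mem (w : List Bool) : ∀ (s : ℤ × ℤ) (t : ℝ), t ∈ S (run w s) → pull w t ∈ S s := by
  induction w with
  | nil => intro s t h; exact h
  | cons b w ih =>
    intro s t h
    have := ih _ t h
    cases b
    · exact (mem0 this.1 this.2.1).2 this
    · exact (mem1 this.1 this.2.1).2 this

theorem cyc {t : ℝ} (h : t ∈ S (2, 1562)) : (527095 + t) / 1048576 ∈ S (2, 1562) := by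
  have := pull_mem [true, false, false, false, false, false, false, false, true, false, true,
    false, true, true, true, true, false, true, true, true] (2, 1562) t h
  convert this using 1
  simp only [pull, if_true, Bool.false_eq_true, if_false]
  ring

theorem side : ∃ t ∈ S (2, 1562), t < 1 / 2 := by
  have hc : ContinuousOn (fun t : ℝ => T t + t) (Icc 0 1) := (T_cont.add continuous_id).continuousOn
  obtain ⟨t, ht, h⟩ := intermediate_value_Icc zero_le_one hc
    (show (784 / 1025 : ℝ) ∈ Icc (T 0 + 0) (T 1 + 1) by rw [T_zero, T_one]; norm_num)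
  have h1 : t ∈ S (1, 784) := ⟨ht.1, ht.2, by push_cast; simp only at h; linarith⟩
  refine ⟨_, pull_mem [false, true, true, true, false] (2, 1562) t h1, ?_⟩
  simp only [pull, if_true, Bool.false_eq_true, if_false]
  linarith [ht.2]

theorem inf_cyc : (S (2, 1562)).Infinite := by
  intro hf
  obtain ⟨t0, h0, h0'⟩ := side
  have hf' : (S (2, 1562) ∩ {t | t < 527095 / 1048575}).Finite := hf.inter_of_left _
  obtain ⟨t, ⟨h1, h2⟩, h3⟩ := Set.exists_max_image _ id hf'
    ⟨t0, h0, show t0 < 527095 / 1048575 by linarith⟩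
  have h2' : t < 527095 / 1048575 := h2
  have := h3 _ ⟨cyc h1, show (527095 + t) / 1048576 < 527095 / 1048575 by linarith⟩
  simp only [id] at this
  linarith

theorem inf_top : (S (0, 482)).Infinite := by
  refine Set.infinite_of_injOn_mapsTo (f := fun t => (2 + t) / 16) (fun a _ b _ h => ?_)
    (fun t ht => ?_) inf_cyc
  · simp only at h; linarith
  · have := pull_mem [false, false, true, false] (0, 482) t ht
    convert this using 1
    simp only [pull, if_true, Bool.false_eq_true, if_false]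
    ring

theorem cnt_top : (S (0, 482)).Countable := countable_S 100 0 482 (List.Mem.head _)

theorem not_dyadic (m : ℕ) (k : ℤ) : T (k / 2 ^ m) ≠ 482 / 1025 := by
  intro h
  obtain ⟨z, hz⟩ := T_dyadic m k
  rw [h] at hz
  have h1 : (482 : ℝ) * 2 ^ m = 5 * (205 * z) := by linarith
  have h2 : (482 : ℤ) * 2 ^ m = 5 * (205 * z) := by exact_mod_cast h1
  have h5 : Prime (5 : ℤ) := Int.prime_ofNat_iff.2 (by norm_num)
  rcases h5.dvd_or_dvd ⟨_, h2⟩ with h | h
  · omega
  · have := h5.dvd_of_dvd_pow h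
    omega

end Pool.Agent.H.MP_4a5b11_an
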